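import Pool.Agent.Helper41.LF.GoalsA

/-!
# Lagrange interpolation bound
-/

namespace Pool.Agent.Helper39.LF

open Polynomial Pool.Agent.Helper41.LF

theorem thm_LAG : S_LAG := by
  intro D f hf u v s t hs x hx hsep ht y hy
  have hinj : Set.InjOn x ((Finset.univ : Finset (Fin (D + 1))) : Set (Fin (D + 1))) := by
    intro i _ j _ hij
    by_contra hne
    have := hsep i j hne
    rw [hij, sub_self, abs_zero] at this
    linarith
  have hdeg : f.degree < ((Finset.univ : Finset (Fin (D + 1))).card : ℕ) := by
    rw [Finset.card_univ, Fintype.card_fin]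
    exact lt_of_le_of_lt degree_le_natDegree (by exact_mod_cast Nat.lt_succ_of_le hf)
  have hfe := Lagrange.eq_interpolate hinj hdeg
  have huv : 0 ≤ v - u := by
    have := (hx 0).1.trans (hx 0).2
    linarith
  have ht0 : 0 ≤ t := (abs_nonneg _).trans (ht 0)
  have hq : 0 ≤ (v - u) / s := div_nonneg huv hs.le
  have hbasis : ∀ i : Fin (D + 1),
      |(Lagrange.basis Finset.univ x i).eval y| ≤ ((v - u) / s) ^ D := by
    intro i
    rw [Lagrange.basis, eval_prod, Finset.abs_prod]
    have hcard : (Finset.univ.erase i : Finset (Fin (D + 1))).card = D := by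
      rw [Finset.card_erase_of_mem (Finset.mem_univ i), Finset.card_univ, Fintype.card_fin]
      rfl
    calc ∏ j ∈ Finset.univ.erase i, |eval y (Lagrange.basisDivisor (x i) (x j))|
        ≤ ∏ j ∈ (Finset.univ.erase i : Finset (Fin (D + 1))), (v - u) / s := by
          refine Finset.prod_le_prod (fun _ _ => abs_nonneg _) fun j hj => ?_
          have hne : i ≠ j := (Finset.ne_of_mem_erase hj).symm
          have hd := hsep i j hne
          rw [Lagrange.basisDivisor, eval_mul, eval_C, eval_sub, eval_X, eval_C, abs_mul, abs_inv,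
            inv_mul_eq_div]
          have hnum : |y - x j| ≤ v - u := by
            rw [abs_le]
            constructor <;> linarith [hy.1, hy.2, (hx j).1, (hx j).2]
          exact div_le_div₀ huv hnum hs hd
      _ = ((v - u) / s) ^ D := by rw [Finset.prod_const, hcard]
  rw [hfe, Lagrange.interpolate_apply, eval_finsetSum]
  calc |∑ i, eval y (C (eval (x i) f) * Lagrange.basis Finset.univ x i)|
      ≤ ∑ i, |eval y (C (eval (x i) f) * Lagrange.basis Finset.univ x i)| :=
        Finset.abs_sum_le_sum_abs _ _
    _ ≤ ∑ _i : Fin (D + 1), t * ((v - u) / s) ^ D := by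
        refine Finset.sum_le_sum fun i _ => ?_
        rw [eval_mul, eval_C, abs_mul]
        exact mul_le_mul (ht i) (hbasis i) (abs_nonneg _) ht0
    _ = (D + 1) * t * ((v - u) / s) ^ D := by
        rw [Finset.sum_const, Finset.card_univ, Fintype.card_fin, nsmul_eq_mul]
        push_cast
        ring

end Pool.Agent.Helper39.LF
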